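import Pool.Agent.H.MP_067393_an.M

set_option autoImplicit false

namespace Pool.Agent.Results.MP_067393_an.Yes

open Pool.Agent.H.MP_067393_an

universe u

/-- The Hochschild formula, for elementary tensors given by `g`. -/
def hb {A Y G : Type*} [Mul A] [AddCommGroup G] (l r : A → Y → Y) (n : ℕ)
    (g : Y → (Fin n → A) → G) (x : Y) (a : Fin (n + 1) → A) : G :=
  g (r (a 0) x) (Fin.tail a) +
    ∑ i : Fin n, (-1 : ℤ) ^ (i.val + 1) • g x (Fin.contractNth i.castSucc (· * ·) a) +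
    (-1 : ℤ) ^ (n + 1) • g (l (a (Fin.last n)) x) (Fin.init a)

variable {A : Type} {X : Type u} [NonUnitalNormedRing A] [NormedSpace ℂ A]
  [NormedAddCommGroup X] [NormedSpace ℂ X]

variable (A) in
/-- `A` is a complex Banach algebra. -/
def Ban : Prop := IsScalarTower ℂ A A ∧ SMulCommClass ℂ A A ∧ CompleteSpace A

/-- `X` is a Banach bimodule for the left action `l` and the right action `r`. -/
def Bim (l r : A → X → X) : Prop :=
  CompleteSpace X ∧ IsBoundedBilinearMap ℂ (fun p : A × X => l p.1 p.2) ∧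
    IsBoundedBilinearMap ℂ (fun p : A × X => r p.1 p.2) ∧
    (∀ a b x, l (a * b) x = l a (l b x)) ∧ (∀ a b x, r (a * b) x = r b (r a x)) ∧
    ∀ a b x, l a (r b x) = r b (l a x)

/-- `d` is the Hochschild boundary. -/
def Bd (l r : A → X → X) (d : ∀ n, C A X (n + 1) → C A X n) : Prop :=
  ∀ n, IsBoundedLinearMap ℂ (d n) ∧ ∀ x a, d n (el x a) = hb l r n el x a

theorem result : ∃ (A : Type) (_ : NonUnitalNormedRing A) (_ : NormedSpace ℂ A), Ban A ∧
    (∀ (X : Type u) [NormedAddCommGroup X] [NormedSpace ℂ X] (l r : A → X → X), Bim l r →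
      ∃ d, Bd l r d ∧ ∀ n, Function.Exact (d (n + 1)) (d n)) ∧
    ∃ (X : Type) (_ : NormedAddCommGroup X) (_ : NormedSpace ℂ X) (l r : A → X → X), Bim l r ∧
      ∃ d, Bd l r d ∧ ¬ IsClosed (Set.range (d 0)) := by
  obtain ⟨A, _, _, _, _, _, ⟨ι, F, _, P, Γ, _, m, m', N⟩, X, _, _, _, r, h1, h2⟩ := main
  refine ⟨A, inferInstance, inferInstance, ⟨‹_›, ‹_›, ‹_›⟩, ?_, X, inferInstance, inferInstance,
    fun a => (0 : A →L[ℂ] X →L[ℂ] X) a, fun a => r a, ⟨‹_›,
      (0 : A →L[ℂ] X →L[ℂ] X).isBoundedBilinearMap, r.isBoundedBilinearMap, h1⟩, ?_⟩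
  · rintro X _ _ l r ⟨_, hl, hr, h⟩
    obtain ⟨d, hd⟩ := exD hl.toContinuousLinearMap hr.toContinuousLinearMap
    exact ⟨fun n => d n, fun n => ⟨(d n).isBoundedLinearMap, hd n⟩,
      N.exact (l := hl.toContinuousLinearMap) (r := hr.toContinuousLinearMap) h hd⟩
  · obtain ⟨d, hd⟩ := exD 0 r
    exact ⟨fun n => d n, fun n => ⟨(d n).isBoundedLinearMap, hd n⟩, h2 d hd⟩

end Pool.Agent.Results.MP_067393_an.Yes
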